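import Pool.Agent.N303.SJ.Stm

set_option autoImplicit false

/-! Local version of the theorem of Stein and Tomas. -/

open MeasureTheory Metric Set
open scoped ENNReal RealInnerProductSpace NNReal

namespace Pool.Agent.N901.SJ

open Pool.Agent.N303.SH Pool.Agent.N303.SJ

lemma N2_nonneg {n : ℕ} (g : S n → ℂ) : 0 ≤ N2 g := by
  unfold N2
  exact integral_nonneg fun y => by positivity

lemma enorm_two (z : ℂ) : ‖z‖ₑ ^ (2 : ℝ) = ENNReal.ofReal (‖z‖ ^ 2) := by
  rw [← ofReal_norm, ENNReal.ofReal_rpow_of_nonneg (norm_nonneg _) (by norm_num), Real.rpow_two]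

/-- integral over a ball in polar coordinates -/
lemma polar_ball {c : ℕ} {h : S (c + 2) → ℂ} (hc : Continuous (ft h)) (ρ : ℝ) :
    ∫⁻ x in ball (0 : E (c + 2)) ρ, ‖ft h x‖ₑ ^ (2 : ℝ) =
      ∫⁻ r in Ioo 0 ρ, ENNReal.ofReal (r ^ (c + 1) *
        ∫ w, ‖ft h (r • (w : E (c + 2)))‖ ^ 2 ∂(sg (c + 2))) := by
  have hm : Measurable fun x : E (c + 2) => ‖ft h x‖ₑ ^ (2 : ℝ) := hc.measurable.enorm.pow_const _
  rw [← lintegral_indicator measurableSet_ball, polar (by omega) _ (hm.indicator measurableSet_ball)]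
  have e1 : ∀ w : S (c + 2), ∫⁻ r in Ioi (0 : ℝ), ENNReal.ofReal (r ^ (c + 2 - 1)) *
      (ball (0 : E (c + 2)) ρ).indicator (fun x => ‖ft h x‖ₑ ^ (2 : ℝ)) (r • (w : E (c + 2))) =
      ∫⁻ r in Ioo 0 ρ, ENNReal.ofReal (r ^ (c + 1)) * ‖ft h (r • (w : E (c + 2)))‖ₑ ^ (2 : ℝ) := by
    intro w
    rw [← lintegral_indicator measurableSet_Ioi, ← lintegral_indicator measurableSet_Ioo]
    apply lintegral_congr
    intro r
    by_cases h1 : 0 < r
    · rw [indicator_of_mem (mem_Ioi.2 h1)]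
      by_cases h2 : r < ρ
      · rw [indicator_of_mem (mem_Ioo.2 ⟨h1, h2⟩), indicator_of_mem]
        · rfl
        · rw [mem_ball_zero_iff, norm_smul, S_norm, mul_one, Real.norm_eq_abs, abs_of_pos h1]
          exact h2
      · rw [indicator_of_notMem (fun h3 => h2 (mem_Ioo.1 h3).2), indicator_of_notMem, mul_zero]
        rw [mem_ball_zero_iff, norm_smul, S_norm, mul_one, Real.norm_eq_abs, abs_of_pos h1]
        exact h2
    · rw [indicator_of_notMem (show r ∉ Ioi (0 : ℝ) from h1),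
        indicator_of_notMem (show r ∉ Ioo (0 : ℝ) ρ from fun h3 => h1 (mem_Ioo.1 h3).1)]
  simp only [e1]
  have hm2 : Measurable fun p : S (c + 2) × ℝ => ENNReal.ofReal (p.2 ^ (c + 1)) *
      ‖ft h (p.2 • (p.1 : E (c + 2)))‖ₑ ^ (2 : ℝ) := by
    have hc2 : Continuous fun p : S (c + 2) × ℝ => ft h (p.2 • (p.1 : E (c + 2))) :=
      hc.comp (by fun_prop)
    exact (measurable_snd.pow_const _).ennreal_ofReal.mul (hc2.measurable.enorm.pow_const _)
  rw [lintegral_lintegral_swap hm2.aemeasurable]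
  refine setLIntegral_congr_fun measurableSet_Ioo fun r hr => ?_
  have hc3 : Continuous fun w : S (c + 2) => ft h (r • (w : E (c + 2))) := hc.comp (by fun_prop)
  rw [lintegral_const_mul _ (hc3.measurable.enorm.pow_const _),
    ENNReal.ofReal_mul (by have := hr.1; positivity)]
  congr 1
  have hi : Integrable (fun w : S (c + 2) => ‖ft h (r • (w : E (c + 2)))‖ ^ 2) (sg (c + 2)) :=
    (hc3.norm.pow 2).integrable_of_hasCompactSupport (HasCompactSupport.of_compactSpace _)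
  rw [ofReal_integral_eq_lintegral_ofReal hi
    (Filter.Eventually.of_forall fun w => by positivity)]
  exact lintegral_congr fun w => enorm_two _

lemma low_mass (h3 : S_SL) {c : ℕ} {g : S (c + 2) → ℂ} (hg : MemLp g 2 (sg (c + 2)))
    (J : Finset ℕ) {b ρ : ℝ} (hb : 0 ≤ b * ρ)
    (hJ : ∀ k ∈ J, ENNReal.ofReal (b * ρ) ≤
      ∫⁻ r in Ioo 0 ρ, ENNReal.ofReal (‖Ic c k r‖ ^ 2 * r ^ (c + 1))) :
    ENNReal.ofReal (b * ρ * N2 (blk J g)) ≤
      ∫⁻ x in ball (0 : E (c + 2)) ρ, ‖ft (blk J g) x‖ₑ ^ (2 : ℝ) ∧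
    ∫⁻ x in ball (0 : E (c + 2)) ρ, ‖ft (blk J g) x‖ₑ ^ (2 : ℝ) ≤
      ∫⁻ x in ball (0 : E (c + 2)) ρ, ‖ft g x‖ₑ ^ (2 : ℝ) := by
  obtain ⟨hs, -, -, -, -, hr⟩ := h3 c g hg J
  have hgi : Integrable g (sg (c + 2)) := hg.integrable (by norm_num)
  have hbc : Continuous (ft (blk J g)) := ft_cont (int_cc (blk_cont J g))
  rw [polar_ball hbc, polar_ball (ft_cont hgi)]
  constructor
  · have e1 : ∫⁻ r in Ioo 0 ρ, ENNReal.ofReal (r ^ (c + 1) *
        ∫ w, ‖ft (blk J g) (r • (w : E (c + 2)))‖ ^ 2 ∂(sg (c + 2))) =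
        ∑ k ∈ J, ENNReal.ofReal (N2 (cp k g)) *
          ∫⁻ r in Ioo 0 ρ, ENNReal.ofReal (‖Ic c k r‖ ^ 2 * r ^ (c + 1)) := by
      have hmk : ∀ k, Measurable fun r : ℝ => ENNReal.ofReal (‖Ic c k r‖ ^ 2 * r ^ (c + 1)) := by
        intro k
        have := Ic_cont c k
        exact (by fun_prop : Continuous fun r : ℝ => ‖Ic c k r‖ ^ 2 * r ^ (c + 1)).measurable.ennreal_ofReal
      calc _ = ∫⁻ r in Ioo 0 ρ, ∑ k ∈ J, ENNReal.ofReal (N2 (cp k g)) *
            ENNReal.ofReal (‖Ic c k r‖ ^ 2 * r ^ (c + 1)) := by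
            refine setLIntegral_congr_fun measurableSet_Ioo fun r hr' => ?_
            have hr0 : (0:ℝ) ≤ r := hr'.1.le
            rw [(hr r hr0).1, Finset.mul_sum, ENNReal.ofReal_sum_of_nonneg]
            · refine Finset.sum_congr rfl fun k _ => ?_
              rw [← ENNReal.ofReal_mul (N2_nonneg _)]
              congr 1
              ring
            · intro k _
              have := N2_nonneg (cp k g)
              positivity
        _ = ∑ k ∈ J, ∫⁻ r in Ioo 0 ρ, ENNReal.ofReal (N2 (cp k g)) *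
            ENNReal.ofReal (‖Ic c k r‖ ^ 2 * r ^ (c + 1)) :=
            lintegral_finsetSum _ fun k _ => (hmk k).const_mul _
        _ = _ := Finset.sum_congr rfl fun k _ => lintegral_const_mul _ (hmk k)
    rw [e1, hs, Finset.mul_sum, ENNReal.ofReal_sum_of_nonneg fun k _ =>
      mul_nonneg hb (N2_nonneg _)]
    refine Finset.sum_le_sum fun k hk => ?_
    rw [mul_comm, ENNReal.ofReal_mul (N2_nonneg _)]
    exact mul_le_mul' le_rfl (hJ k hk)
  · refine setLIntegral_mono' measurableSet_Ioo fun r hr' => ?_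
    apply ENNReal.ofReal_le_ofReal
    have hr0 : (0:ℝ) ≤ r := hr'.1.le
    exact mul_le_mul_of_nonneg_left (hr r hr0).2 (by positivity)

lemma holder {α : Type*} [MeasurableSpace α] (μ : Measure α) {F : α → ℝ≥0∞} (hF : Measurable F)
    {P q s : ℝ} (hs0 : 0 ≤ s) (hs1 : s ≤ 1) (hP : 0 ≤ P) (h : 2 * (1 - s) + P * s = q) :
    ∫⁻ x, F x ^ q ∂μ ≤ (∫⁻ x, F x ^ (2 : ℝ) ∂μ) ^ (1 - s) * (∫⁻ x, F x ^ P ∂μ) ^ s := by
  have h1 := ENNReal.lintegral_mul_norm_pow_le (μ := μ) (hF.pow_const (2 : ℝ)).aemeasurable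
    (hF.pow_const P).aemeasurable (sub_nonneg.2 hs1) hs0 (by ring)
  refine le_trans (le_of_eq ?_) h1
  apply lintegral_congr
  intro x
  rw [← ENNReal.rpow_mul, ← ENNReal.rpow_mul, ← ENNReal.rpow_add_of_nonneg _ _
    (mul_nonneg (by norm_num) (sub_nonneg.2 hs1)) (mul_nonneg hP hs0), h]

lemma tay_num {ℓ : ℝ} (hℓ : 1 ≤ ℓ) {L : ℕ} (hL : 36 * ℓ ≤ L) :
    (2 * Real.pi * ℓ) ^ L / L.factorial ≤ (1 / 2) ^ L := by
  have hL0 : (0 : ℝ) < L := by linarith
  have h1 := Real.pow_div_factorial_le_exp (L : ℝ) hL0.le L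
  have hpi := Real.pi_lt_d2
  have hpi0 := Real.pi_pos
  have he := Real.exp_one_lt_d9
  have h2 : (2 * Real.pi * ℓ) ≤ 2 * Real.pi / 36 * L := by
    have := mul_le_mul_of_nonneg_left hL (by positivity : (0:ℝ) ≤ 2 * Real.pi / 36)
    linarith
  calc (2 * Real.pi * ℓ) ^ L / L.factorial ≤ (2 * Real.pi / 36 * L) ^ L / L.factorial := by
        gcongr
    _ = (2 * Real.pi / 36) ^ L * ((L : ℝ) ^ L / L.factorial) := by rw [mul_pow]; ring
    _ ≤ (2 * Real.pi / 36) ^ L * Real.exp L := by gcongr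
    _ = (2 * Real.pi / 36 * Real.exp 1) ^ L := by
        rw [mul_pow, ← Real.exp_nat_mul, mul_one]
    _ ≤ (1 / 2) ^ L := by
        apply pow_le_pow_left₀ (by positivity)
        nlinarith [Real.exp_pos 1]

set_option maxHeartbeats 2000000 in
/-- the ball around the origin -/
theorem ball0 (h1 : S_ST) (h2 : S_TAY) (h3 : S_SL) (h4 : S_BESL) {c : ℕ} (hc : 1 ≤ c) {P q : ℝ}
    (hP : 2 + 4 / ((c : ℝ) + 1) < P) (hq2 : 2 < q) (hqP : q < P) :
    ∃ C2 C : ℝ, 1 ≤ C2 ∧ 0 < C ∧ ∀ g : S (c + 2) → ℂ, MemLp g 2 (sg (c + 2)) →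
    ∀ (ℓ : ℝ), 1 ≤ ℓ →
      ∫⁻ x in ball (0 : E (c + 2)) ℓ, ‖ft g x‖ₑ ^ q ≤
        ENNReal.ofReal (C * ℓ ^ (-(P * (q - 2) / (P - 2) / 2))) *
          (∫⁻ x in ball (0 : E (c + 2)) (C2 * ℓ), ‖ft g x‖ₑ ^ (2 : ℝ)) ^ (q / 2) +
        ENNReal.ofReal (C * ℓ ^ ((c : ℝ) + 2) * (2 : ℝ) ^ (-ℓ) * N2 g ^ (q / 2)) := by
  obtain ⟨CS, hCS, hST⟩ := h1 c hc P hP
  obtain ⟨C0, b, hC0, hb, hBE⟩ := h4 c hc
  have hP2 : 2 < P := by linarith
  set s : ℝ := (q - 2) / (P - 2) with hs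
  have hP20 : 0 < P - 2 := by linarith
  have hs0 : 0 < s := div_pos (by linarith) hP20
  have hs1 : s < 1 := by rw [hs, div_lt_one hP20]; linarith
  have hsP : s * (P - 2) = q - 2 := div_mul_cancel₀ _ hP20.ne'
  have hsq : 2 * (1 - s) + P * s = q := by linarith
  have hex : P * (q - 2) / (P - 2) / 2 = P * s / 2 := by rw [hs]; ring
  have hPs : 0 < P * s / 2 := by positivity
  set C2 : ℝ := 38 * C0 with hC2
  have hC20 : 1 ≤ C2 := by rw [hC2]; linarith
  set V : ℝ := (sg (c + 2)).real univ with hV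
  have hV0 : 0 < V := V_pos c
  set v : ℝ := (volume (ball (0 : E (c + 2)) 1)).toReal with hv
  have hv0 : 0 ≤ v := ENNReal.toReal_nonneg
  set K1 : ℝ := CS ^ s * (1 / (b * C2)) ^ (P * s / 2) with hK1
  have hK10 : 0 < K1 := by positivity
  set K2 : ℝ := V ^ (q / 2) * v with hK2
  have hK20 : 0 ≤ K2 := by positivity
  set D : ℝ := (2 : ℝ) ^ (q - 1) with hD
  have hD0 : 0 < D := by positivity
  refine ⟨C2, D * (K1 + K2), hC20, by positivity, fun g hg ℓ hℓ => ?_⟩
  rw [hex]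
  have hℓ0 : 0 < ℓ := by linarith
  set L : ℕ := ⌈36 * ℓ⌉₊ with hL
  have hL1 : 36 * ℓ ≤ L := Nat.le_ceil _
  have hL2 : (L : ℝ) ≤ 37 * ℓ := by
    have := Nat.ceil_lt_add_one (by positivity : 0 ≤ 36 * ℓ)
    linarith
  set J : Finset ℕ := Finset.range L with hJ
  obtain ⟨-, hNlow, hhm, hNhigh, hdeg, -⟩ := h3 c g hg J
  have hgi : Integrable g (sg (c + 2)) := hg.integrable (by norm_num)
  set low : S (c + 2) → ℂ := blk J g with hlow
  set high : S (c + 2) → ℂ := fun x => g x - blk J g x with hhigh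
  have hlc : Continuous low := blk_cont J g
  have hhi : Integrable high (sg (c + 2)) := hgi.sub (int_cc hlc)
  have hcg : Continuous (ft g) := ft_cont hgi
  have hcl : Continuous (ft low) := ft_cont (int_cc hlc)
  have hch : Continuous (ft high) := ft_cont hhi
  have hsum : ∀ x, ft g x = ft low x + ft high x := by
    intro x
    unfold ft
    rw [← integral_add]
    · congr 1
      ext y
      rw [hhigh]
      simp only
      ring
    · exact int_cc (by fun_prop)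
    · have : Continuous fun y : S (c + 2) =>
          Complex.exp (-(2 * Real.pi * ⟪(y : E (c + 2)), x⟫ : ℝ) * Complex.I) := by fun_prop
      refine Integrable.bdd_mul (c := 1) hhi this.aestronglyMeasurable ?_
      refine Filter.Eventually.of_forall fun y => ?_
      rw [← Complex.ofReal_neg, Complex.norm_exp_ofReal_mul_I]
  set X : ℝ≥0∞ := ∫⁻ x in ball (0 : E (c + 2)) (C2 * ℓ), ‖ft g x‖ₑ ^ (2 : ℝ) with hX
  have hN0 := N2_nonneg g
  -- the low part
  have hbr : 0 < b * (C2 * ℓ) := by positivity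
  obtain ⟨m1, m2⟩ := low_mass h3 hg J (b := b) (ρ := C2 * ℓ) hbr.le (by
    intro k hk
    apply hBE
    have hk' : k + 1 ≤ L := Finset.mem_range.1 hk
    have hk2 : (k : ℝ) + 1 ≤ L := by exact_mod_cast hk'
    rw [hC2]
    nlinarith)
  have hlowX : ENNReal.ofReal (N2 low) ≤ ENNReal.ofReal (1 / (b * (C2 * ℓ))) * X := by
    calc ENNReal.ofReal (N2 low) = ENNReal.ofReal (1 / (b * (C2 * ℓ))) *
          ENNReal.ofReal (b * (C2 * ℓ) * N2 low) := by
          rw [← ENNReal.ofReal_mul (by positivity)]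
          congr 1
          field_simp
      _ ≤ _ := mul_le_mul' le_rfl (m1.trans m2)
  have hA : ∫⁻ x in ball (0 : E (c + 2)) ℓ, ‖ft low x‖ₑ ^ q ≤
      ENNReal.ofReal (K1 * ℓ ^ (-(P * s / 2))) * X ^ (q / 2) := by
    have hH := holder (volume.restrict (ball (0 : E (c + 2)) ℓ)) hcl.measurable.enorm hs0.le hs1.le
      (by linarith : 0 ≤ P) hsq
    have hsub : ball (0 : E (c + 2)) ℓ ⊆ ball 0 (C2 * ℓ) := ball_subset_ball (by nlinarith)
    have a1 : ∫⁻ x in ball (0 : E (c + 2)) ℓ, ‖ft low x‖ₑ ^ (2 : ℝ) ≤ X :=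
      (lintegral_mono_set hsub).trans m2
    have a2 : ∫⁻ x in ball (0 : E (c + 2)) ℓ, ‖ft low x‖ₑ ^ P ≤
        ENNReal.ofReal (CS * N2 low ^ (P / 2)) :=
      (setLIntegral_le_lintegral _ _).trans (hST low (hlc.memLp_of_hasCompactSupport
        (HasCompactSupport.of_compactSpace _)))
    have hNl0 := N2_nonneg low
    have a3 : ENNReal.ofReal (CS * N2 low ^ (P / 2)) ^ s ≤
        ENNReal.ofReal (K1 * ℓ ^ (-(P * s / 2))) * X ^ (P * s / 2) := by
      calc ENNReal.ofReal (CS * N2 low ^ (P / 2)) ^ s =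
            ENNReal.ofReal (CS ^ s) * ENNReal.ofReal (N2 low) ^ (P * s / 2) := by
            rw [ENNReal.ofReal_rpow_of_nonneg (by positivity) hs0.le,
              ENNReal.ofReal_rpow_of_nonneg hNl0 hPs.le, ← ENNReal.ofReal_mul (by positivity)]
            congr 1
            rw [Real.mul_rpow hCS.le (by positivity), ← Real.rpow_mul hNl0]
            congr 2
            ring
        _ ≤ ENNReal.ofReal (CS ^ s) * (ENNReal.ofReal (1 / (b * (C2 * ℓ))) * X) ^ (P * s / 2) :=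
            mul_le_mul' le_rfl (ENNReal.rpow_le_rpow hlowX hPs.le)
        _ = ENNReal.ofReal (CS ^ s * (1 / (b * (C2 * ℓ))) ^ (P * s / 2)) * X ^ (P * s / 2) := by
            rw [ENNReal.mul_rpow_of_nonneg _ _ hPs.le, ← mul_assoc,
              ENNReal.ofReal_rpow_of_nonneg (by positivity) hPs.le,
              ← ENNReal.ofReal_mul (by positivity)]
        _ = _ := by
            have e : (1 / (b * (C2 * ℓ))) ^ (P * s / 2) =
                (1 / (b * C2)) ^ (P * s / 2) * ℓ ^ (-(P * s / 2)) := by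
              rw [show 1 / (b * (C2 * ℓ)) = 1 / (b * C2) * ℓ⁻¹ by field_simp,
                Real.mul_rpow (by positivity) (by positivity), Real.inv_rpow hℓ0.le,
                Real.rpow_neg hℓ0.le]
            rw [e, hK1, mul_assoc (CS ^ s)]
    calc _ ≤ _ := hH
      _ ≤ X ^ (1 - s) * (ENNReal.ofReal (CS * N2 low ^ (P / 2))) ^ s :=
          mul_le_mul' (ENNReal.rpow_le_rpow a1 (by linarith)) (ENNReal.rpow_le_rpow a2 hs0.le)
      _ ≤ X ^ (1 - s) * (ENNReal.ofReal (K1 * ℓ ^ (-(P * s / 2))) * X ^ (P * s / 2)) :=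
          mul_le_mul' le_rfl a3
      _ = ENNReal.ofReal (K1 * ℓ ^ (-(P * s / 2))) * (X ^ (1 - s) * X ^ (P * s / 2)) := by ring
      _ = _ := by
          rw [← ENNReal.rpow_add_of_nonneg _ _ (by linarith) hPs.le]
          congr 2
          linarith
  -- the high part
  have hB : ∫⁻ x in ball (0 : E (c + 2)) ℓ, ‖ft high x‖ₑ ^ q ≤
      ENNReal.ofReal (K2 * ℓ ^ ((c : ℝ) + 2) * (2 : ℝ) ^ (-ℓ) * N2 g ^ (q / 2)) := by
    have hdeg' : Deg {l | L ≤ l} high := by
      have e : {l | L ≤ l} = {l | l ∉ J} := by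
        ext l
        simp [hJ]
      rw [e]
      exact hdeg
    have b1 : ∀ x ∈ ball (0 : E (c + 2)) ℓ, ‖ft high x‖ₑ ^ q ≤
        ENNReal.ofReal ((2 : ℝ) ^ (-ℓ) * (V ^ (q / 2) * N2 g ^ (q / 2))) := by
      intro x hx
      have hx' : ‖x‖ < ℓ := mem_ball_zero_iff.1 hx
      have t1 := h2 c L high hhm hdeg' x
      have t2 : (2 * Real.pi * ‖x‖) ^ L / L.factorial ≤ (1 / 2) ^ L := by
        refine le_trans ?_ (tay_num hℓ hL1)
        have := Real.pi_pos
        gcongr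
      have t3 : ‖ft high x‖ ^ 2 ≤ ((1 / 2 : ℝ) ^ L) ^ 2 * (V * N2 g) := by
        calc _ ≤ _ := t1
          _ = ((2 * Real.pi * ‖x‖) ^ L / L.factorial) ^ 2 * (V * N2 high) := by
              rw [mul_assoc]
          _ ≤ _ := by
              have := Real.pi_pos
              have := N2_nonneg high
              gcongr
      rw [← ofReal_norm, ENNReal.ofReal_rpow_of_nonneg (norm_nonneg _) (by linarith)]
      apply ENNReal.ofReal_le_ofReal
      have t4 : ‖ft high x‖ ^ q = (‖ft high x‖ ^ 2) ^ (q / 2) := by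
        rw [← Real.rpow_natCast, ← Real.rpow_mul (norm_nonneg _)]
        congr 1
        push_cast
        ring
      have t5 : (((1 / 2 : ℝ) ^ L) ^ 2) ^ (q / 2) ≤ (2 : ℝ) ^ (-ℓ) := by
        calc (((1 / 2 : ℝ) ^ L) ^ 2) ^ (q / 2) = (1 / 2 : ℝ) ^ ((L : ℝ) * q) := by
              rw [← Real.rpow_natCast, ← Real.rpow_natCast, ← Real.rpow_mul (by positivity),
                ← Real.rpow_mul (by positivity)]
              congr 1
              push_cast
              ring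
          _ ≤ (1 / 2 : ℝ) ^ ℓ := by
              apply Real.rpow_le_rpow_of_exponent_ge (by norm_num) (by norm_num)
              nlinarith
          _ = (2 : ℝ) ^ (-ℓ) := by
              rw [one_div, Real.inv_rpow (by norm_num), Real.rpow_neg (by norm_num)]
      rw [t4]
      calc (‖ft high x‖ ^ 2) ^ (q / 2) ≤ (((1 / 2 : ℝ) ^ L) ^ 2 * (V * N2 g)) ^ (q / 2) :=
            Real.rpow_le_rpow (by positivity) t3 (by linarith)
        _ = (((1 / 2 : ℝ) ^ L) ^ 2) ^ (q / 2) * (V ^ (q / 2) * N2 g ^ (q / 2)) := by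
            rw [Real.mul_rpow (by positivity) (by positivity), Real.mul_rpow hV0.le hN0]
        _ ≤ _ := by gcongr
    have b2 : volume (ball (0 : E (c + 2)) ℓ) = ENNReal.ofReal (ℓ ^ ((c : ℝ) + 2) * v) := by
      rw [Measure.addHaar_ball _ _ hℓ0.le, ENNReal.ofReal_mul (by positivity), hv,
        ENNReal.ofReal_toReal measure_ball_lt_top.ne]
      congr 2
      rw [finrank_euclideanSpace, Fintype.card_fin, ← Real.rpow_natCast]
      push_cast
      rfl
    calc _ ≤ ∫⁻ x in ball (0 : E (c + 2)) ℓ,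
          ENNReal.ofReal ((2 : ℝ) ^ (-ℓ) * (V ^ (q / 2) * N2 g ^ (q / 2))) :=
          setLIntegral_mono' measurableSet_ball b1
      _ = ENNReal.ofReal ((2 : ℝ) ^ (-ℓ) * (V ^ (q / 2) * N2 g ^ (q / 2))) *
          ENNReal.ofReal (ℓ ^ ((c : ℝ) + 2) * v) := by rw [setLIntegral_const, b2]
      _ = _ := by
          rw [← ENNReal.ofReal_mul (by positivity)]
          congr 1
          rw [hK2]
          ring
  -- assembly
  have hD' : (2 : ℝ≥0∞) ^ (q - 1) = ENNReal.ofReal D := by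
    rw [hD, ← ENNReal.ofReal_rpow_of_pos (by norm_num)]
    norm_num
  calc ∫⁻ x in ball (0 : E (c + 2)) ℓ, ‖ft g x‖ₑ ^ q ≤
        ∫⁻ x in ball (0 : E (c + 2)) ℓ, ENNReal.ofReal D * (‖ft low x‖ₑ ^ q + ‖ft high x‖ₑ ^ q) := by
        apply lintegral_mono
        intro x
        simp only
        rw [hsum x]
        refine (ENNReal.rpow_le_rpow (enorm_add_le _ _) (by linarith)).trans ?_
        rw [← hD']
        exact ENNReal.rpow_add_le_mul_rpow_add_rpow _ _ (by linarith)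
    _ = ENNReal.ofReal D * ((∫⁻ x in ball (0 : E (c + 2)) ℓ, ‖ft low x‖ₑ ^ q) +
          (∫⁻ x in ball (0 : E (c + 2)) ℓ, ‖ft high x‖ₑ ^ q)) := by
        have hm1 : Measurable fun x => ‖ft low x‖ₑ ^ q := hcl.measurable.enorm.pow_const _
        have hm2 : Measurable fun x => ‖ft high x‖ₑ ^ q := hch.measurable.enorm.pow_const _
        rw [lintegral_const_mul _ (by fun_prop), lintegral_add_left hm1]
    _ ≤ ENNReal.ofReal D * (ENNReal.ofReal (K1 * ℓ ^ (-(P * s / 2))) * X ^ (q / 2) +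
          ENNReal.ofReal (K2 * ℓ ^ ((c : ℝ) + 2) * (2 : ℝ) ^ (-ℓ) * N2 g ^ (q / 2))) :=
        mul_le_mul' le_rfl (add_le_add hA hB)
    _ ≤ _ := by
        rw [mul_add, ← mul_assoc, ← ENNReal.ofReal_mul hD0.le, ← ENNReal.ofReal_mul hD0.le]
        refine add_le_add (mul_le_mul' (ENNReal.ofReal_le_ofReal ?_) le_rfl)
          (ENNReal.ofReal_le_ofReal ?_)
        · have h0 : 0 ≤ D * K2 * ℓ ^ (-(P * s / 2)) := by positivity
          have e : D * (K1 + K2) * ℓ ^ (-(P * s / 2)) =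
            D * (K1 * ℓ ^ (-(P * s / 2))) + D * K2 * ℓ ^ (-(P * s / 2)) := by ring
          rw [e]
          exact le_add_of_nonneg_right h0
        · have h0 : 0 ≤ D * K1 * (ℓ ^ ((c : ℝ) + 2) * (2 : ℝ) ^ (-ℓ) * N2 g ^ (q / 2)) := by
            positivity
          have e : D * (K1 + K2) * ℓ ^ ((c : ℝ) + 2) * (2 : ℝ) ^ (-ℓ) * N2 g ^ (q / 2) =
            D * (K2 * ℓ ^ ((c : ℝ) + 2) * (2 : ℝ) ^ (-ℓ) * N2 g ^ (q / 2)) +
            D * K1 * (ℓ ^ ((c : ℝ) + 2) * (2 : ℝ) ^ (-ℓ) * N2 g ^ (q / 2)) := by ring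
          rw [e]
          exact le_add_of_nonneg_right h0

lemma ball_shift {n : ℕ} (F : E n → ℝ≥0∞) (x0 : E n) (ℓ : ℝ) :
    ∫⁻ x in ball x0 ℓ, F x = ∫⁻ x in ball (0 : E n) ℓ, F (x + x0) := by
  rw [← lintegral_indicator measurableSet_ball, ← lintegral_indicator measurableSet_ball,
    ← lintegral_add_right_eq_self _ x0]
  apply lintegral_congr
  intro x
  by_cases h : x ∈ ball (0 : E n) ℓ
  · rw [indicator_of_mem h, indicator_of_mem]
    rw [mem_ball, dist_eq_norm, add_sub_cancel_right]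
    exact mem_ball_zero_iff.1 h
  · rw [indicator_of_notMem h, indicator_of_notMem]
    intro h2
    apply h
    rw [mem_ball, dist_eq_norm, add_sub_cancel_right] at h2
    exact mem_ball_zero_iff.2 h2

theorem t_ball (h1 : S_ST) (h2 : S_TAY) (h3 : S_SL) (h4 : S_BESL) :
    Pool.Agent.N303.SJ.S_BALL := by
  intro c hc P q hP hq2 hqP
  obtain ⟨C2, C, hC2, hC, h⟩ := ball0 h1 h2 h3 h4 hc hP hq2 hqP
  refine ⟨C2, C, hC2, hC, fun g hg x0 ℓ hℓ => ?_⟩
  set g' : S (c + 2) → ℂ := fun x =>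
    Complex.exp ((⟪(-(2 * Real.pi)) • x0, (x : E (c + 2))⟫ : ℝ) * Complex.I) * g x with hg'
  have hft : ∀ x, ft g' x = ft g (x + x0) := by
    intro x
    rw [hg', ft_mod, smul_smul]
    congr 1
    have : (2 * Real.pi)⁻¹ * -(2 * Real.pi) = -1 := by
      have := Real.pi_ne_zero
      field_simp
    rw [this, neg_one_smul, sub_neg_eq_add]
  have hn : ∀ x, ‖g' x‖ = ‖g x‖ := by
    intro x
    rw [hg']
    simp only
    rw [norm_mul, Complex.norm_exp_ofReal_mul_I, one_mul]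
  have hcont : Continuous fun x : S (c + 2) =>
      Complex.exp ((⟪(-(2 * Real.pi)) • x0, (x : E (c + 2))⟫ : ℝ) * Complex.I) := by fun_prop
  have hg2 : MemLp g' 2 (sg (c + 2)) := by
    refine (memLp_congr_norm (hcont.aestronglyMeasurable.mul hg.1) hg.1 ?_).2 hg
    exact Filter.Eventually.of_forall hn
  have hN : N2 g' = N2 g := by
    unfold N2
    simp only [hn]
  have h5 := h g' hg2 ℓ hℓ
  rw [hN] at h5
  simp only [hft] at h5
  rw [ball_shift _ x0 ℓ, ball_shift _ x0 (C2 * ℓ)]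
  exact h5

end Pool.Agent.N901.SJ
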